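import Pool.Agent.Helper49.RS.Main

/-!
Double ergodic averages along two independent random sparse sequences: almost everywhere
convergence for all exponents `a, b < 1/2`.
-/

set_option autoImplicit false
open MeasureTheory ProbabilityTheory Filter Topology

namespace Pool.Agent.Results.MP_9a4587_an.PointwiseHalf

/-- For all `a, b` in `(0, 1/2)`: almost surely, for all commuting measure preserving maps `T, S` of
a probability space (invertible or not) and all bounded `f, g`, the averages of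
`f (T^(a_k) x) g (S^(b_k) x)` converge almost everywhere to `E[f | I_T] E[g | I_S]`.
Here position `n` of the Lean sequences stands for the integer `n + 1`. -/
theorem result (a b : ℝ) (ha0 : 0 < a) (ha1 : a < 1 / 2) (hb0 : 0 < b) (hb1 : b < 1 / 2)
    (Ω : Type) [MeasurableSpace Ω] (P : Measure Ω) [IsProbabilityMeasure P]
    (ξ η : ℕ → Ω → ℕ) (hξ : ∀ n, Measurable (ξ n)) (hη : ∀ n, Measurable (η n))
    (hind : iIndepFun (fun i : ℕ ⊕ ℕ => Sum.elim ξ η i) P)
    (hp : ∀ n : ℕ, P {ω | ξ n ω = 1} = ENNReal.ofReal (((n : ℝ) + 1) ^ (-a)))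
    (hq : ∀ n : ℕ, P {ω | η n ω = 1} = ENNReal.ofReal (((n : ℝ) + 1) ^ (-b))) :
    ∀ᵐ ω ∂P, ∀ (α : Type) [MeasurableSpace α] (μ : Measure α) [IsProbabilityMeasure μ]
      (T S : α → α), MeasurePreserving T μ μ → MeasurePreserving S μ μ →
      (∀ x, T (S x) = S (T x)) →
      ∀ f g : α → ℝ, MemLp f ⊤ μ → MemLp g ⊤ μ →
      ∀ᵐ x ∂μ, Tendsto (fun N : ℕ => (N : ℝ)⁻¹ * ∑ k ∈ Finset.range N,
          f (T^[Nat.nth (fun n => ξ n ω = 1) k + 1] x) *
            g (S^[Nat.nth (fun n => η n ω = 1) k + 1] x)) atTop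
        (𝓝 ((μ[f | MeasurableSpace.invariants T] x) *
          (μ[g | MeasurableSpace.invariants S] x))) := by
  filter_upwards [Pool.Agent.Helper49.RS.ae_err ha0 ha1 hb0 hb1 ξ η hξ hη hind hp hq] with ω hω
  obtain ⟨h1, h2, h3, h4⟩ := hω
  intro α _ μ _ T S hT hS hTS f g hf hg
  exact (Pool.Agent.Helper49.RS.main_top ha0 (by linarith) hb0 (by linarith) ⟨h1, h2, h3, h4⟩
    hT hS hTS f g hf hg).1

end Pool.Agent.Results.MP_9a4587_an.PointwiseHalf
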