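import Pool.Agent.Helper57.SS.Main2

/-!
Double ergodic averages along two independent random sparse sequences: mean square convergence for
all exponents `a, b` in `(0,1)` and `T = S`, ergodic or not, for functions whose part in the tail
of a decreasing filtration has singular spectral measure.
-/

set_option autoImplicit false
open MeasureTheory ProbabilityTheory Filter Topology

namespace Pool.Agent.Results.MP_9a4587_an.SingularTail

/-- The function `u` has a singular spectral measure for `T`. -/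
def HasSingularSpectrum {α : Type} [MeasurableSpace α] (μ : Measure α) (T : α → α) (u : α → ℝ) : Prop :=
  ∃ σ : Measure UnitAddCircle, IsFiniteMeasure σ ∧
    (∀ n : ℕ, ∫ z, fourier (n : ℤ) z ∂σ = ((∫ x, u (T^[n] x) * u x ∂μ : ℝ) : ℂ)) ∧ σ ⟂ₘ volume

/-- For some sub-σ-algebra `A` with `T⁻¹ A ⊆ A` whose images under the powers of `T` (`Tinv` is the
inverse of `T`) generate the whole σ-algebra, the conditional expectation of `f` on `⋂ T⁻ⁿ A` has a
singular spectral measure. -/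
def SingularOnTail {α : Type} [m0 : MeasurableSpace α] (μ : Measure α) (T Tinv : α → α)
    (f : α → ℝ) : Prop :=
  ∃ A : MeasurableSpace α, A ≤ m0 ∧ A.comap T ≤ A ∧ m0 ≤ ⨆ n : ℕ, A.comap (Tinv^[n]) ∧
    @HasSingularSpectrum α m0 μ T (μ[f | ⨅ n : ℕ, A.comap (T^[n])])

theorem tail_aux {α : Type} (A : MeasurableSpace α) [m0 : MeasurableSpace α] {μ : Measure α}
    {T : α ≃ᵐ α} {f : α → ℝ} (h1 : A ≤ m0) (h2 : A.comap (⇑T) ≤ A)
    (h3 : m0 ≤ ⨆ n : ℕ, A.comap ((⇑T.symm)^[n]))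
    (h4 : HasSingularSpectrum μ (⇑T) (μ[f | ⨅ n : ℕ, A.comap ((⇑T)^[n])])) :
    Pool.Agent.Helper57.SS.Exh A T ∧
      Pool.Agent.Helper57.SS.SingSpec (⇑T) μ (μ[f | Pool.Agent.Helper57.SS.Tl A T]) := by
  have z := Pool.Agent.Helper88.SS.gZP α T
  have zp1 : ∀ n : ℕ, (Pool.Agent.Helper57.SS.zp T (n : ℤ)) = (⇑T)^[n] := fun n => by
    ext x; exact z.2.1 n x
  have zp2 : ∀ n : ℕ, (Pool.Agent.Helper57.SS.zp T (-(n : ℤ))) = (⇑T.symm)^[n] := fun n => by
    ext x; exact z.2.2.1 n x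
  constructor
  · refine ⟨h1, h2, ?_⟩
    simp only [Pool.Agent.Helper57.SS.Fz, zp2]
    exact h3
  · obtain ⟨σ, k1, k2, k3⟩ := h4
    simp only [Pool.Agent.Helper57.SS.Tl, Pool.Agent.Helper57.SS.Fz, zp1]
    exact ⟨σ, ⟨k1, k2⟩, k3⟩

theorem tail_imp {α : Type} [m0 : MeasurableSpace α] {μ : Measure α} {T : α ≃ᵐ α} {f : α → ℝ}
    (h : SingularOnTail μ (⇑T) (⇑T.symm) f) : Pool.Agent.Helper57.SS.TailSing μ T f := by
  obtain ⟨A, h1, h2, h3, h4⟩ := h
  obtain ⟨k1, k2⟩ := @tail_aux α A m0 μ T f h1 h2 h3 h4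
  exact ⟨A, k1, k2⟩

/-- For all `a, b` in `(0, 1)`: almost surely, for every automorphism `T` (ergodic or not) of a
probability space and all bounded `f, g` such that `f` or `g` satisfies `SingularOnTail`, the
averages of `f (T^(a_k) x) g (T^(b_k) x)` converge in `L²(μ)` to `E[f | I_T] E[g | I_T]`.
Here position `n` of the Lean sequences stands for the integer `n + 1`. -/
theorem result (a b : ℝ) (ha0 : 0 < a) (ha1 : a < 1) (hb0 : 0 < b) (hb1 : b < 1)
    (Ω : Type) [MeasurableSpace Ω] (P : Measure Ω) [IsProbabilityMeasure P]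
    (ξ η : ℕ → Ω → ℕ) (hξ : ∀ n, Measurable (ξ n)) (hη : ∀ n, Measurable (η n))
    (hind : iIndepFun (fun i : ℕ ⊕ ℕ => Sum.elim ξ η i) P)
    (hp : ∀ n : ℕ, P {ω | ξ n ω = 1} = ENNReal.ofReal (((n : ℝ) + 1) ^ (-a)))
    (hq : ∀ n : ℕ, P {ω | η n ω = 1} = ENNReal.ofReal (((n : ℝ) + 1) ^ (-b))) :
    ∀ᵐ ω ∂P, ∀ (α : Type) [MeasurableSpace α] (μ : Measure α) [IsProbabilityMeasure μ]
      (T : α ≃ᵐ α), MeasurePreserving (⇑T) μ μ →
      ∀ f g : α → ℝ, MemLp f ⊤ μ → MemLp g ⊤ μ →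
      (SingularOnTail μ (⇑T) (⇑T.symm) f ∨ SingularOnTail μ (⇑T) (⇑T.symm) g) →
      Tendsto (fun N : ℕ => eLpNorm (fun x => (N : ℝ)⁻¹ * ∑ k ∈ Finset.range N,
          f ((⇑T)^[Nat.nth (fun n => ξ n ω = 1) k + 1] x) *
            g ((⇑T)^[Nat.nth (fun n => η n ω = 1) k + 1] x)
          - (μ[f | MeasurableSpace.invariants (⇑T)] x) *
            (μ[g | MeasurableSpace.invariants (⇑T)] x)) 2 μ) atTop (𝓝 0) := by
  filter_upwards [Pool.Agent.Helper57.SS.main2 ha0 ha1 hb0 hb1 ⟨hξ, hη, hind, hp, hq⟩] with ω hω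
  intro α _ μ _ T hT f g hf hg h
  exact hω α μ T hT f g hf hg (h.imp tail_imp tail_imp)

end Pool.Agent.Results.MP_9a4587_an.SingularTail
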