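import Pool.Agent.Helper30.DX.Ext
import Pool.Agent.Helper30.DX.Det
import Pool.Agent.Helper30.DX.Tail

/-!
Double ergodic averages along two independent random sparse sequences: mean square convergence for
all exponents `a, b` in `(0,1)`, when one of the two functions belongs to a class which contains all
functions with singular spectral measure and is closed under isometric extensions.
-/

set_option autoImplicit false
open MeasureTheory ProbabilityTheory Filter Topology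

namespace Pool.Agent.Results.MP_9a4587_an.StructuredClass

/-- Bounded functions which are measurable for `m`. -/
def Bdd {α : Type} (m : MeasurableSpace α) (u : α → ℝ) : Prop :=
  Measurable[m] u ∧ ∃ C : ℝ, ∀ x, |u x| ≤ C

/-- `f` is a limit in `L¹(μ)` of finite linear combinations of elements of `V`. -/
def InClosedSpan {α : Type} {m0 : MeasurableSpace α} (μ : Measure α) (V : Set (α → ℝ))
    (f : α → ℝ) : Prop :=
  ∀ ε : ℝ, 0 < ε → ∃ h ∈ Submodule.span ℝ V, ∫ x, |f x - h x| ∂μ ≤ ε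

/-- The function `u` has a singular spectral measure for `R`. -/
def SingularSpectrum {α : Type} {m0 : MeasurableSpace α} (μ : Measure α) (R : α → α)
    (u : α → ℝ) : Prop :=
  ∃ σ : Measure UnitAddCircle, IsFiniteMeasure σ ∧
    (∀ n : ℕ, ∫ z, fourier (n : ℤ) z ∂σ = ((∫ x, u (R^[n] x) * u x ∂μ : ℝ) : ℂ)) ∧ σ ⟂ₘ volume

/-- The function `u` has a singular spectral measure without atoms for `R`. -/
def ContinuousSingularSpectrum {α : Type} {m0 : MeasurableSpace α} (μ : Measure α) (R : α → α)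
    (u : α → ℝ) : Prop :=
  ∃ σ : Measure UnitAddCircle, IsFiniteMeasure σ ∧
    (∀ n : ℕ, ∫ z, fourier (n : ℤ) z ∂σ = ((∫ x, u (R^[n] x) * u x ∂μ : ℝ) : ℂ)) ∧
    σ ⟂ₘ volume ∧ ∀ z, σ {z} = 0

/-- The automorphism `R` commutes with `T` and `S`. -/
def InCentralizer {α : Type} {m0 : MeasurableSpace α} (μ : Measure α) (T S R : α ≃ᵐ α) : Prop :=
  MeasurePreserving (⇑R) μ μ ∧ (∀ x, R (T x) = T (R x)) ∧ ∀ x, R (S x) = S (R x)

/-- For some sub-σ-algebra `A` with `R⁻¹ A ⊆ A` and `Q⁻¹ A ⊆ A` whose images under the powers of `R`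
generate the whole σ-algebra (`Rinv` is the inverse of `R`), the conditional expectation of `u` on
`⋂ R⁻ⁿ A` vanishes. -/
def ZeroOnTail {α : Type} {m0 : MeasurableSpace α} (μ : Measure α) (R Rinv Q : α → α)
    (u : α → ℝ) : Prop :=
  ∃ A : MeasurableSpace α, A ≤ m0 ∧ A.comap R ≤ A ∧ A.comap Q ≤ A ∧
    m0 ≤ ⨆ n : ℕ, A.comap (Rinv^[n]) ∧ μ[u | ⨅ n : ℕ, A.comap (R^[n])] =ᵐ[μ] 0

/-- `Y` contains the eigenfunctions of `R`, up to null sets. -/
def ContainsEigenfunctions {α : Type} {m0 : MeasurableSpace α} (μ : Measure α) (R : α → α)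
    (Y : MeasurableSpace α) : Prop :=
  ∀ (c : ℂ) (ψ : α → ℂ), MemLp ψ 2 μ → (∀ᵐ x ∂μ, ψ (R x) = c * ψ x) →
    ∃ ψ' : α → ℂ, Measurable[Y] ψ' ∧ ψ =ᵐ[μ] ψ'

/-- `F` is a basis, orthonormal relative to `Y` and orthogonal to `Y`, of an `R`-invariant
module of finite rank over `Y`. -/
def RelativeBasis {α : Type} {m0 : MeasurableSpace α} (μ : Measure α) (R : α → α)
    (Y : MeasurableSpace α) {n : ℕ} (F : Fin n → α → ℝ) : Prop :=
  (∀ i, Bdd m0 (F i)) ∧ (∀ i, μ[F i | Y] =ᵐ[μ] 0) ∧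
  (∀ i j, μ[fun x => F i x * F j x | Y] =ᵐ[μ] fun _ => if i = j then 1 else 0) ∧
  ∃ A : Fin n → Fin n → α → ℝ, (∀ i j, Bdd Y (A i j)) ∧
    ∀ i, ∀ᵐ x ∂μ, F i (R x) = ∑ j, A i j x * F j x

/-- `ρ` is a coupling of four copies of `μ`, of which any three are independent, invariant under
the automorphisms commuting with `T` and `S` and under the exchange of the coordinates `0, 2`
with `1, 3`. -/
structure Coupling {α : Type} {m0 : MeasurableSpace α} (μ : Measure α) (T S : α ≃ᵐ α)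
    (ρ : Measure (Fin 4 → α)) : Prop where
  prob : IsProbabilityMeasure ρ
  three : ∀ A : Fin 4 → Set α, (∀ i, MeasurableSet (A i)) → (∃ i, A i = Set.univ) →
    ρ (Set.univ.pi A) = ∏ i, μ (A i)
  inv : ∀ R : α ≃ᵐ α, InCentralizer μ T S R → ρ.map (fun x i => R (x i)) = ρ
  swap : ρ.map (fun x => ![x 1, x 0, x 3, x 2]) = ρ

/-- Under `ρ` the function `u` of the coordinate `0` is independent of the other coordinates. -/
def Independent {α : Type} {m0 : MeasurableSpace α} (μ : Measure α) (ρ : Measure (Fin 4 → α))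
    (u : α → ℝ) : Prop :=
  ∀ u1 u2 u3 : α → ℝ, Bdd m0 u1 → Bdd m0 u2 → Bdd m0 u3 →
    ∫ x, u (x 0) * (u1 (x 1) * u2 (x 2) * u3 (x 3)) ∂ρ =
      (∫ x, u x ∂μ) * ((∫ x, u1 x ∂μ) * (∫ x, u2 x ∂μ) * ∫ x, u3 x ∂μ)

/-- The structured functions for `(T, S)`: the least class of bounded functions which contains those
with singular spectral measure (also for an automorphism in the centralizer, then without atoms),
those which vanish on the tail of an exhausting σ-algebra `A` for `T` if `T = S`, or for `T⁻¹` if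
`S⁻¹ A ⊆ A`, and which is closed under limits of linear combinations, isometric extensions, and
functions determined by the couplings of four copies. -/
inductive Structured {α : Type} {m0 : MeasurableSpace α} (μ : Measure α) (T S : α ≃ᵐ α) :
    (α → ℝ) → Prop
  | singular (u : α → ℝ) : Bdd m0 u → SingularSpectrum μ (⇑T) u → Structured μ T S u
  | centralizer (R : α ≃ᵐ α) (u : α → ℝ) : InCentralizer μ T S R → Bdd m0 u →
      ContinuousSingularSpectrum μ (⇑R) u → Structured μ T S u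
  | tail (u : α → ℝ) : Bdd m0 u → T = S → ZeroOnTail μ (⇑T) (⇑T.symm) (⇑T) u → Structured μ T S u
  | past (u : α → ℝ) : Bdd m0 u → ZeroOnTail μ (⇑T.symm) (⇑T) (⇑S) u → Structured μ T S u
  | closed (V : Set (α → ℝ)) (u : α → ℝ) : (∀ v ∈ V, Structured μ T S v) → Bdd m0 u →
      InClosedSpan μ V u → Structured μ T S u
  | isometric (R : α ≃ᵐ α) (Y : MeasurableSpace α) (n : ℕ) (F : Fin n → α → ℝ) (i : Fin n)
      (w : α → ℝ) : InCentralizer μ T S R → Y ≤ m0 → Y.comap (⇑R) ≤ Y →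
      ContainsEigenfunctions μ (⇑R) Y → (∀ v : α → ℝ, Bdd Y v → Structured μ T S v) →
      RelativeBasis μ (⇑R) Y F → Bdd Y w → Structured μ T S (fun x => w x * F i x)
  | joining (V : Set (α → ℝ)) (u : α → ℝ) : StandardBorelSpace α → (∀ v ∈ V, Structured μ T S v) →
      Bdd m0 u → (∀ ρ : Measure (Fin 4 → α), Coupling μ T S ρ →
        (∀ v ∈ V, Independent μ ρ v) → Independent μ ρ u) → Structured μ T S u

section proof

open Pool.Agent.Helper57.SS Pool.Agent.Helper30.DX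

theorem tail_aux {α : Type} (A : MeasurableSpace α) [m0 : MeasurableSpace α] {T : α ≃ᵐ α}
    (h1 : A ≤ m0) (h2 : A.comap (⇑T) ≤ A) (h3 : m0 ≤ ⨆ n : ℕ, A.comap ((⇑T.symm)^[n])) :
    Exh A T ∧ Tl A T = ⨅ n : ℕ, A.comap ((⇑T)^[n]) := by
  have z := Pool.Agent.Helper88.SS.gZP α T
  have zp1 : ∀ n : ℕ, (zp T (n : ℤ)) = (⇑T)^[n] := fun n => by
    ext x; exact z.2.1 n x
  have zp2 : ∀ n : ℕ, (zp T (-(n : ℤ))) = (⇑T.symm)^[n] := fun n => by
    ext x; exact z.2.2.1 n x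
  constructor
  · refine ⟨h1, h2, ?_⟩
    simp only [Fz, zp2]
    exact h3
  · simp only [Tl, Fz, zp1]

theorem tail_sing {α : Type} (A : MeasurableSpace α) [m0 : MeasurableSpace α] {μ : Measure α}
    [IsProbabilityMeasure μ] {T : α ≃ᵐ α} {f : α → ℝ}
    (h1 : A ≤ m0) (h2 : A.comap (⇑T) ≤ A) (h3 : m0 ≤ ⨆ n : ℕ, A.comap ((⇑T.symm)^[n]))
    (h4 : μ[f | ⨅ n : ℕ, A.comap ((⇑T)^[n])] =ᵐ[μ] 0) :
    Exh A T ∧ SingSpec (⇑T) μ (μ[f | Tl A T]) := by
  obtain ⟨k1, k2⟩ := tail_aux A h1 h2 h3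
  refine ⟨k1, 0, ⟨inferInstance, fun n => ?_⟩, Measure.MutuallySingular.zero_left⟩
  rw [integral_zero_measure, k2]
  have : (fun x => (μ[f | ⨅ n : ℕ, A.comap ((⇑T)^[n])]) ((⇑T)^[n] x) *
      (μ[f | ⨅ n : ℕ, A.comap ((⇑T)^[n])]) x) =ᵐ[μ] fun _ => 0 := by
    filter_upwards [h4] with x hx
    rw [hx]
    simp
  rw [integral_congr_ae this]
  simp

theorem gd_past {α : Type} (A : MeasurableSpace α) [m0 : MeasurableSpace α] {μ : Measure α}
    [IsProbabilityMeasure μ] {T S : α ≃ᵐ α} {a b : ℕ → ℕ}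
    (hW : Wp a b) (ha : StrictMono a) (hb : StrictMono b) (hT : Ergodic (⇑T) μ)
    (hS : Ergodic (⇑S) μ) (hTS : ∀ x, T (S x) = S (T x)) {u : α → ℝ} (hu : Br u)
    (h1 : A ≤ m0) (h2 : A.comap (⇑T.symm) ≤ A) (hAS : A.comap (⇑S) ≤ A)
    (h3 : m0 ≤ ⨆ n : ℕ, A.comap ((⇑T)^[n]))
    (h4 : μ[u | ⨅ n : ℕ, A.comap ((⇑T.symm)^[n])] =ᵐ[μ] 0) : Gd μ T S a b u := by
  obtain ⟨c, v, hc, hv, rfl⟩ := hu.scale
  obtain ⟨k1, k2⟩ := tail_aux (T := T.symm) A h1 h2 h3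
  refine Gd.smul (gd_of_conv hW hT hS hTS (Br.of_bd hv) fun g hg => ?_) c
  refine conv_main hW ha hb hT hS hTS (bd_memLp hv ⊤) (bd_memLp hg ⊤) (Or.inr ?_)
  refine mix4_aux A hT.toMeasurePreserving hS.toMeasurePreserving hTS k1 hAS hv hg ?_
  rw [k2]
  have h5 : μ[c • v | ⨅ n : ℕ, A.comap ((⇑T.symm)^[n])] =ᵐ[μ]
    c • μ[v | ⨅ n : ℕ, A.comap ((⇑T.symm)^[n])] := condExp_smul _ _ _
  have h6 : μ[c • v | ⨅ n : ℕ, A.comap ((⇑T.symm)^[n])] =ᵐ[μ] 0 := h4
  filter_upwards [h5, h6] with x e1 e2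
  rw [e2, Pi.smul_apply, smul_eq_mul, Pi.zero_apply] at e1
  have := (mul_eq_zero.1 e1.symm).resolve_left hc.ne'
  rw [this, Pi.zero_apply]

section
variable {α : Type} [m0 : MeasurableSpace α] {μ : Measure α} [IsProbabilityMeasure μ]
  {T S : α ≃ᵐ α} {a b : ℕ → ℕ}

theorem gd_main (hW : Wp a b) (ha : StrictMono a) (hb : StrictMono b) (hT : Ergodic (⇑T) μ)
    (hS : Ergodic (⇑S) μ) (hTS : ∀ x, T (S x) = S (T x)) {u : α → ℝ} (hu : Br u)
    (h : SingSpec (⇑T) μ u ∨ (∃ R : α ≃ᵐ α, InCentralizer μ T S R ∧ ContSing (⇑R) μ u) ∨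
      (T = S ∧ ZeroOnTail μ (⇑T) (⇑T.symm) (⇑T) u)) : Gd μ T S a b u := by
  refine gd_of_conv hW hT hS hTS hu fun g hg => ?_
  refine conv_main hW ha hb hT hS hTS (hu.memLp ⊤) (bd_memLp hg ⊤) (Or.inl ?_)
  rcases h with h | ⟨R, ⟨r1, r2, r3⟩, h⟩ | ⟨rfl, A, h1, h2, -, h3, h4⟩
  · exact Or.inl h
  · exact Or.inr (Or.inr (Or.inl ⟨R, r1, r2, r3, Or.inl h⟩))
  · refine Or.inr (Or.inr (Or.inr ⟨rfl, Or.inl ?_⟩))
    obtain ⟨k1, k2⟩ := @tail_sing α A m0 μ _ T u h1 h2 h3 h4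
    exact ⟨A, k1, k2⟩

theorem gd_span {V : Set (α → ℝ)} (hV : ∀ v ∈ V, Br v ∧ Gd μ T S a b v) {h : α → ℝ}
    (hh : h ∈ Submodule.span ℝ V) : Br h ∧ Gd μ T S a b h := by
  induction hh using Submodule.span_induction with
  | mem x hx => exact hV x hx
  | zero =>
    have h0 : Br (fun _ : α => (0 : ℝ)) := Br.const 0
    refine ⟨h0, ?_⟩
    intro u1 u2 u3 k1 k2 k3
    have e : ∀ x : Fin 4 → α, f4 (0 : α → ℝ) u1 u2 u3 x = 0 := fun x => by
      unfold f4; simp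
    simp_rw [e]
    simp
  | add x y _ _ hx hy => exact ⟨hx.1.add hy.1, hx.2.add hx.1 hy.1 hy.2⟩
  | smul c x _ hx => exact ⟨hx.1.smul c, hx.2.smul c⟩

theorem gd_closed (hT : MeasurePreserving (⇑T) μ μ) (hS : MeasurePreserving (⇑S) μ μ)
    {V : Set (α → ℝ)} (hV : ∀ v ∈ V, Br v ∧ Gd μ T S a b v) {f : α → ℝ} (hf : Br f)
    (h : InClosedSpan μ V f) : Gd μ T S a b f :=
  Gd.close hT hS hf fun ε hε => by
    obtain ⟨g, hg, hfg⟩ := h ε hε
    obtain ⟨k1, k2⟩ := gd_span hV hg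
    exact ⟨g, k1, k2, hfg⟩

theorem gd_structured (hW : Wp a b) (ha : StrictMono a) (hb : StrictMono b) (hT : Ergodic (⇑T) μ)
    (hS : Ergodic (⇑S) μ) (hTS : ∀ x, T (S x) = S (T x)) {u : α → ℝ}
    (hu : Structured μ T S u) : Br u ∧ Gd μ T S a b u := by
  have hmT := hT.toMeasurePreserving
  have hmS := hS.toMeasurePreserving
  induction hu with
  | singular u hu h =>
    obtain ⟨σ, h1, h2, h3⟩ := h
    exact ⟨hu, gd_main hW ha hb hT hS hTS hu (Or.inl ⟨σ, ⟨h1, h2⟩, h3⟩)⟩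
  | centralizer R u hR hu h =>
    obtain ⟨σ, h1, h2, h3, h4⟩ := h
    exact ⟨hu, gd_main hW ha hb hT hS hTS hu (Or.inr (Or.inl ⟨R, hR, σ, ⟨h1, h2⟩, h3, h4⟩))⟩
  | tail u hu h1 h2 => exact ⟨hu, gd_main hW ha hb hT hS hTS hu (Or.inr (Or.inr ⟨h1, h2⟩))⟩
  | past u hu h =>
    obtain ⟨A, h1, h2, h3, h4, h5⟩ := h
    exact ⟨hu, @gd_past α A m0 μ _ T S a b hW ha hb hT hS hTS u hu h1 h2 h3 h4 h5⟩
  | closed V u _ hu h ih => exact ⟨hu, gd_closed hmT hmS ih hu h⟩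
  | isometric R Y n F i w hR hY hYR hE _ hF hw ih =>
    obtain ⟨r1, r2, r3⟩ := hR
    obtain ⟨hF, hF0, hFF, A, hA, hFA⟩ := hF
    have hw' : @Br α m0 w := ⟨hw.1.mono hY le_rfl, hw.2⟩
    refine ⟨@Br.mul α m0 _ _ hw' (hF i), ?_⟩
    exact @ext_gd α Y m0 μ _ T S R a b hmT hmS r1
      (fun x => (r2 x).symm) (fun x => (r3 x).symm) hY hYR hE
      (fun w h1 h2 => (ih w ⟨h2, h1.2⟩).2) n F hF hF0 hFF A
      (fun i j => ⟨(hA i j).1.mono hY le_rfl, (hA i j).2⟩) (fun i j => (hA i j).1) hFA w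
      hw' hw.1 i
  | joining V u hB _ hu h ih =>
    refine ⟨hu, gd_det hW hT hS hTS ih hu fun ρ h1 h2 h3 h4 h5 => ?_⟩
    exact h ρ ⟨h1, h2, fun R hR => h3 R hR.1 hR.2.1 hR.2.2, h4⟩ h5

theorem conv_structured (hW : Wp a b) (ha : StrictMono a) (hb : StrictMono b)
    (hT : Ergodic (⇑T) μ) (hS : Ergodic (⇑S) μ) (hTS : ∀ x, T (S x) = S (T x)) {f g : α → ℝ}
    (hg : MemLp g ⊤ μ) (h : ∃ u, Structured μ T S u ∧ f =ᵐ[μ] u) : Conv μ T S a b f g := by
  have hmT := hT.toMeasurePreserving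
  have hmS := hS.toMeasurePreserving
  obtain ⟨u, hu, hfu⟩ := h
  obtain ⟨hu1, hu2⟩ := gd_structured hW ha hb hT hS hTS hu
  obtain ⟨c, v, hc, hv, rfl⟩ := hu1.scale
  obtain ⟨d, g', hd, hg', hge⟩ := exists_bd hg
  have hv2 : Gd μ T S a b v := by
    have h1 := hu2.smul c⁻¹
    have e1 : (fun x => c⁻¹ * (c * v x)) = v := by
      funext x; field_simp
    rwa [e1] at h1
  exact conv_scale hmT hmS hfu hge (conv_of_gd hW hT hS hTS hv hg' hv2)

end

end proof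

/-- For all `a, b` in `(0, 1)`: almost surely, for all commuting ergodic automorphisms `T, S` of a
probability space and all bounded `f, g` such that `f` is almost everywhere equal to a structured
function for `(T, S)` or `g` to one for `(S, T)`, the averages of `f (T^(a_k) x) g (S^(b_k) x)`
converge in `L²(μ)` to the product of the integrals.
Here position `n` of the Lean sequences stands for the integer `n + 1`. -/
theorem result (a b : ℝ) (ha0 : 0 < a) (ha1 : a < 1) (hb0 : 0 < b) (hb1 : b < 1)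
    (Ω : Type) [MeasurableSpace Ω] (P : Measure Ω) [IsProbabilityMeasure P]
    (ξ η : ℕ → Ω → ℕ) (hξ : ∀ n, Measurable (ξ n)) (hη : ∀ n, Measurable (η n))
    (hind : iIndepFun (fun i : ℕ ⊕ ℕ => Sum.elim ξ η i) P)
    (hp : ∀ n : ℕ, P {ω | ξ n ω = 1} = ENNReal.ofReal (((n : ℝ) + 1) ^ (-a)))
    (hq : ∀ n : ℕ, P {ω | η n ω = 1} = ENNReal.ofReal (((n : ℝ) + 1) ^ (-b))) :
    ∀ᵐ ω ∂P, ∀ (α : Type) [MeasurableSpace α] (μ : Measure α) [IsProbabilityMeasure μ]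
      (T S : α ≃ᵐ α), Ergodic (⇑T) μ → Ergodic (⇑S) μ → (∀ x, T (S x) = S (T x)) →
      ∀ f g : α → ℝ, MemLp f ⊤ μ → MemLp g ⊤ μ →
      ((∃ u, Structured μ T S u ∧ f =ᵐ[μ] u) ∨ ∃ u, Structured μ S T u ∧ g =ᵐ[μ] u) →
      Tendsto (fun N : ℕ => eLpNorm (fun x => (N : ℝ)⁻¹ * ∑ k ∈ Finset.range N,
          f ((⇑T)^[Nat.nth (fun n => ξ n ω = 1) k + 1] x) *
            g ((⇑S)^[Nat.nth (fun n => η n ω = 1) k + 1] x)
          - (∫ y, f y ∂μ) * (∫ y, g y ∂μ)) 2 μ) atTop (𝓝 0) := by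
  filter_upwards [Pool.Agent.Helper57.SS.ae_wp ha0 ha1 hb0 hb1 ⟨hξ, hη, hind, hp, hq⟩] with ω hω
  obtain ⟨h1, h2, h3⟩ := hω
  intro α _ μ _ T S hT hS hTS f g hf hg h
  have m1 : StrictMono fun k => Nat.nth (fun n => ξ n ω = 1) k + 1 :=
    fun i j hij => Nat.add_lt_add_right (Nat.nth_strictMono h1 hij) 1
  have m2 : StrictMono fun k => Nat.nth (fun n => η n ω = 1) k + 1 :=
    fun i j hij => Nat.add_lt_add_right (Nat.nth_strictMono h2 hij) 1
  rcases h with h | h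
  · exact conv_structured h3 m1 m2 hT hS hTS hg h
  · exact (conv_structured (Pool.Agent.Helper4.SS.gWSY _ _ h3) m2 m1 hS hT
      (fun x => (hTS x).symm) hf h).swap

end Pool.Agent.Results.MP_9a4587_an.StructuredClass
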